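import Pool.Agent.Lib.MP_acafa7_al.F.IfaceG
import Pool.Agent.Lib.MP_acafa7_al.MS.H16.Proper
import Pool.Agent.Lib.MP_acafa7_al.MS.H84.Lift

/-! ACT: a geometric action is uniformly proper. -/

namespace MSG.F75

open Classical

variable {V Γ : Type} [Group Γ] [MulAction Γ V] {X : Cx V}

theorem dist_smul (hG : X.IsGeom Γ) (hc : X.G.Connected) (c : Γ) (x y : V) :
    X.G.dist (c • x) (c • y) = X.G.dist x y := by
  refine le_antisymm (H84.dist_smul_le hG hc c x y) ?_
  have h1 := H84.dist_smul_le hG hc c⁻¹ (c • x) (c • y)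
  rwa [inv_smul_smul, inv_smul_smul] at h1

/-- elements which move `x` by at most `r` -/
def Mv (X : Cx V) (Γ : Type) [Group Γ] [MulAction Γ V] (x : V) (r : ℕ) : Set Γ :=
  {g : Γ | X.G.dist x (g • x) ≤ r}

theorem mv_finite (hG : X.IsGeom Γ) (hc : X.G.Connected) (x : V) (r : ℕ) :
    (Mv X Γ x r).Finite := by
  refine ((H84.ball_fin hG hc x r).biUnion fun z _ => H16.finite_smul_eq hG x z).subset ?_
  intro g hg
  exact Set.mem_biUnion (show g • x ∈ {z | X.G.dist x z ≤ r} from hg) rfl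

theorem mv_conj (hG : X.IsGeom Γ) (hc : X.G.Connected) (c : Γ) (y : V) (r : ℕ) (h : Γ) :
    h ∈ Mv X Γ (c • y) r ↔ c⁻¹ * h * c ∈ Mv X Γ y r := by
  unfold Mv
  simp only [Set.mem_ofPred_eq]
  rw [← dist_smul hG hc c⁻¹ (c • y) (h • c • y), inv_smul_smul, mul_smul, mul_smul]

theorem mv_image (hG : X.IsGeom Γ) (hc : X.G.Connected) (c : Γ) (y : V) (r : ℕ) :
    Mv X Γ (c • y) r = (fun h => c * h * c⁻¹) '' Mv X Γ y r := by
  ext h
  rw [mv_conj hG hc]
  constructor
  · intro hh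
    refine ⟨c⁻¹ * h * c, hh, ?_⟩
    show c * (c⁻¹ * h * c) * c⁻¹ = h
    group
  · rintro ⟨k, hk, rfl⟩
    have h1 : c⁻¹ * (c * k * c⁻¹) * c = k := by group
    show c⁻¹ * (c * k * c⁻¹) * c ∈ _
    rw [h1]
    exact hk

theorem act_st : ActStatement := by
  intro V X Γ _ _ hMS hG
  have hc := hMS.conn
  obtain ⟨s, hs⟩ := hG.cocompact
  refine ⟨hG.adj, ?_, ?_⟩
  · intro r
    refine ⟨s.sup fun y => (Mv X Γ y r).ncard, fun x => ?_⟩
    obtain ⟨c, y, hy, rfl⟩ := hs x
    refine ⟨mv_finite hG hc (c • y) r, ?_⟩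
    show (Mv X Γ (c • y) r).ncard ≤ _
    rw [mv_image hG hc]
    refine le_trans (Set.ncard_image_le (mv_finite hG hc y r)) ?_
    exact Finset.le_sup (f := fun y => (Mv X Γ y r).ncard) hy
  · intro r
    refine ⟨s.sup fun y => (mv_finite hG hc y r).toFinset.sup orderOf, fun x g hg _ => ?_⟩
    obtain ⟨c, y, hy, rfl⟩ := hs x
    have h1 : c⁻¹ * g * c ∈ Mv X Γ y r := (mv_conj hG hc c y r g).mp hg
    have h2 : orderOf (c⁻¹ * g * c) = orderOf g := by
      have h3 : c⁻¹ * g * c = (MulAut.conj c⁻¹) g := by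
        rw [MulAut.conj_apply, inv_inv]
      rw [h3]
      exact orderOf_injective (MulAut.conj c⁻¹).toMonoidHom (MulAut.conj c⁻¹).injective g
    rw [← h2]
    refine le_trans ?_ (Finset.le_sup (f := fun y =>
      (mv_finite hG hc y r).toFinset.sup orderOf) hy)
    exact Finset.le_sup (f := orderOf) ((mv_finite hG hc y r).mem_toFinset.mpr h1)

end MSG.F75
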