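import Pool.Agent.Lib.MP_acafa7_al.F.IfaceC

/-! Generating sets of finite cyclic `p`-groups contain a generator. -/

namespace MSG.F75

open Classical

theorem genp_st : GenPStatement := by
  intro p hp H _ _ hH hcyc s hs
  obtain ⟨g, hg⟩ := hcyc.exists_generator
  obtain ⟨n, hn⟩ := (IsPGroup.iff_orderOf.mp hH) g
  have hpz : Prime (p : ℤ) := Nat.prime_iff_prime_int.mp hp.out
  have hord : ∀ b : ℤ, g ^ (b * (p : ℤ) ^ n) = 1 := by
    intro b
    rw [mul_comm, zpow_mul]
    have h1 : g ^ ((p : ℤ) ^ n) = 1 := by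
      have h2 := pow_orderOf_eq_one g
      rw [hn] at h2
      rw [← h2, ← zpow_natCast]
      push_cast
      rfl
    rw [h1, one_zpow]
  by_cases h1 : ∃ h ∈ s, ∃ m : ℤ, g ^ m = h ∧ ¬ (p : ℤ) ∣ m
  · right
    obtain ⟨h, hhs, m, hgm, hm⟩ := h1
    refine ⟨h, hhs, fun x => ?_⟩
    have hcop : IsCoprime m ((p : ℤ) ^ n) :=
      ((hpz.coprime_iff_not_dvd.mpr hm).symm).pow_right
    obtain ⟨a, b, hab⟩ := hcop
    have hgh : g ∈ Subgroup.zpowers h := by
      refine ⟨a, ?_⟩
      show h ^ a = g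
      rw [← hgm, ← zpow_mul]
      have h2 : m * a = 1 + (-b) * (p : ℤ) ^ n := by linarith
      rw [h2, zpow_add, hord, zpow_one, mul_one]
    exact (Subgroup.zpowers_le.mpr hgh) (hg x)
  · left
    have hall : ∀ h ∈ s, h ∈ Subgroup.zpowers (g ^ (p : ℤ)) := by
      intro h hh
      obtain ⟨m, hm⟩ := hg h
      have hm' : g ^ m = h := hm
      have hd : (p : ℤ) ∣ m := by
        by_contra hnd
        exact h1 ⟨h, hh, m, hm', hnd⟩
      obtain ⟨k, rfl⟩ := hd
      refine ⟨k, ?_⟩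
      show (g ^ (p : ℤ)) ^ k = h
      rw [← zpow_mul]
      exact hm'
    have hle : Subgroup.closure s ≤ Subgroup.zpowers (g ^ (p : ℤ)) :=
      (Subgroup.closure_le _).mpr hall
    rw [hs] at hle
    obtain ⟨k, hk⟩ := hle (Subgroup.mem_top g)
    have hk' : (g ^ (p : ℤ)) ^ k = g := hk
    have hone : g ^ ((p : ℤ) * k - 1) = 1 := by
      rw [zpow_sub, zpow_mul, hk', zpow_one, mul_inv_cancel]
    have hdvd : ((p ^ n : ℕ) : ℤ) ∣ (p : ℤ) * k - 1 := by
      rw [← hn]
      exact orderOf_dvd_iff_zpow_eq_one.mpr hone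
    have hn0 : n = 0 := by
      by_contra hne
      have h3 : (p : ℤ) ∣ ((p ^ n : ℕ) : ℤ) := by
        push_cast
        exact dvd_pow_self _ hne
      have h4 : (p : ℤ) ∣ 1 := by
        have h5 := h3.trans hdvd
        have h6 : (p : ℤ) ∣ (p : ℤ) * k := dvd_mul_right _ _
        have h7 := dvd_sub h6 h5
        simpa using h7
      exact hpz.not_isUnit (isUnit_of_dvd_one h4)
    have hg1 : g = 1 := by
      rw [hn0, pow_zero, orderOf_eq_one_iff] at hn
      exact hn
    intro x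
    obtain ⟨k, hk⟩ := hg x
    have hk2 : g ^ k = x := hk
    rw [← hk2, hg1, one_zpow]

end MSG.F75
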